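import Pool.Agent.Y817.WK.Fin
import Pool.Agent.Y246.WK.Arith
import Pool.Agent.Y171.WK.Derive
import Pool.Agent.Y986.WK.Pde
import Pool.Agent.Y986.WK.Tri

/-!
# MP_f5ceca_al: every variety of associative algebras containing `W_K` has undecidable word problem

One of the two implications of Question 1: if the word problem is decidable in the variety `V` then
`V` does not contain `W_K`. In fact one finite presentation works for all fields and all
varieties.

Ingredients (starting library `Pool.Agent.Y817.WK`, assembled here): by the theorem of Matiyasevich an
undecidable set of natural numbers is given by a system of quadratic equations; the system is encoded
by linear differential equations, these by finitely many relations; the words that have to vanish by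
the relations vanish in all associative algebras with these relations, the other ones do not vanish in
a triangular algebra of `W_K`.
-/

set_option autoImplicit false

namespace Pool.Agent.Results.MP_f5ceca_al.UndecidableAboveW

open Pool.Agent.Y817.WK

/-- There are a natural number `k` and a finite set `R` of noncommutative polynomials without constant
term with integral coefficients in `k` letters such that, for every field `K` of characteristic zero,
every coding `ν` of the elements of `K` by natural numbers and every variety of associative
`K`-algebras (given by an arbitrary set `Id` of identities) containing `W_K`, no algorithm decides
which noncommutative polynomials vanish in the algebra presented by `R` in this variety. -/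
theorem result :
    ∃ (k : ℕ) (R : List (List (ℤ × Fin k × List (Fin k)))),
      ∀ (K : Type) [Field K] [CharZero K] (ν : ℕ → K), Function.Surjective ν →
        ∀ Id : Set (List (K × ℕ × List ℕ)), ContainsW K Id →
          ¬ DecidableWP ν Id (R.map fun r => r.map fun t => ((t.1 : K), t.2)) :=
  main Pool.Agent.Y246.WK.t Pool.Agent.Y171.WK.t
    (model Pool.Agent.Y986.WK.Tri.t Pool.Agent.Y986.WK.t)

end Pool.Agent.Results.MP_f5ceca_al.UndecidableAboveW
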